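import Mathlib
import Pool.Agent.Y924.EL.Defs

/-!
# Three variables suffice (project FV of helper621)

Source: the formulas `Fm` of `Pool/Agent/Y924/EL/Defs.lean`, with arbitrary variables.
Target: formulas with terms, a constant for `t`, and the variables `x_0, x_1, x_2` only.
The values of all variables are coded in one element by `J (x, y) = x ^ p + t y ^ p`.
-/

set_option autoImplicit false

namespace Pool.Agent.R621.FV

open Pool.Agent.Y924.EL (Fm Sat)

/-! ## The target language -/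

/-- terms in the language of rings with a constant for `t` -/
inductive Tm : Type
  | var (i : ℕ)
  | zero
  | one
  | tt
  | add (a b : Tm)
  | sub (a b : Tm)
  | mul (a b : Tm)

/-- formulas: equations, the predicate of the valuation ring, negation, conjunction, existential
quantifier -/
inductive Fo : Type
  | eq (a b : Tm)
  | val (a : Tm)
  | neg (φ : Fo)
  | and (φ ψ : Fo)
  | ex (i : ℕ) (φ : Fo)

/-- value of a term -/
def Tm.ev {K : Type} [CommRing K] (t : K) (v : ℕ → K) : Tm → K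
  | .var i => v i
  | .zero => 0
  | .one => 1
  | .tt => t
  | .add a b => a.ev t v + b.ev t v
  | .sub a b => a.ev t v - b.ev t v
  | .mul a b => a.ev t v * b.ev t v

/-- truth of a formula in `(K, O, t)` -/
def Fo.Tr {K : Type} [CommRing K] (O : Set K) (t : K) : Fo → (ℕ → K) → Prop
  | .eq a b, v => a.ev t v = b.ev t v
  | .val a, v => a.ev t v ∈ O
  | .neg φ, v => ¬ φ.Tr O t v
  | .and φ ψ, v => φ.Tr O t v ∧ ψ.Tr O t v
  | .ex i φ, v => ∃ a : K, φ.Tr O t (Function.update v i a)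

/-- Gödel numbers -/
def Tm.code : Tm → ℕ
  | .var i => Nat.pair 0 i
  | .zero => Nat.pair 1 0
  | .one => Nat.pair 2 0
  | .tt => Nat.pair 3 0
  | .add a b => Nat.pair 4 (Nat.pair a.code b.code)
  | .sub a b => Nat.pair 5 (Nat.pair a.code b.code)
  | .mul a b => Nat.pair 6 (Nat.pair a.code b.code)

def Fo.code : Fo → ℕ
  | .eq a b => Nat.pair 0 (Nat.pair a.code b.code)
  | .val a => Nat.pair 4 a.code
  | .neg φ => Nat.pair 5 φ.code
  | .and φ ψ => Nat.pair 6 (Nat.pair φ.code ψ.code)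
  | .ex i φ => Nat.pair 7 (Nat.pair i φ.code)

/-- the variables of a term are among `x_0, ..., x_(k-1)` -/
def Tm.Below (k : ℕ) : Tm → Prop
  | .var i => i < k
  | .zero => True
  | .one => True
  | .tt => True
  | .add a b => a.Below k ∧ b.Below k
  | .sub a b => a.Below k ∧ b.Below k
  | .mul a b => a.Below k ∧ b.Below k

/-- all variables, free and bound, are among `x_0, ..., x_(k-1)` -/
def Fo.Below (k : ℕ) : Fo → Prop
  | .eq a b => a.Below k ∧ b.Below k
  | .val a => a.Below k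
  | .neg φ => φ.Below k
  | .and φ ψ => φ.Below k ∧ ψ.Below k
  | .ex i φ => i < k ∧ φ.Below k

def Tm.fv : Tm → Finset ℕ
  | .var i => {i}
  | .zero => ∅
  | .one => ∅
  | .tt => ∅
  | .add a b => a.fv ∪ b.fv
  | .sub a b => a.fv ∪ b.fv
  | .mul a b => a.fv ∪ b.fv

/-- free variables -/
def Fo.fv : Fo → Finset ℕ
  | .eq a b => a.fv ∪ b.fv
  | .val a => a.fv
  | .neg φ => φ.fv
  | .and φ ψ => φ.fv ∪ ψ.fv
  | .ex i φ => φ.fv.erase i

/-- all variables of a formula of `Fm` are less than `n` -/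
def VarLt (n : ℕ) : Fm → Prop
  | .eq i j => i < n ∧ j < n
  | .one i => i < n
  | .add i j k => i < n ∧ j < n ∧ k < n
  | .mul i j k => i < n ∧ j < n ∧ k < n
  | .val i => i < n
  | .neg φ => VarLt n φ
  | .and φ ψ => VarLt n φ ∧ VarLt n ψ
  | .ex i φ => i < n ∧ VarLt n φ

/-! ## The translation -/

/-- `a ^ k` -/
def pw (a : Tm) : ℕ → Tm
  | 0 => .one
  | k + 1 => .mul (pw a k) a

/-- `a ^ p + t b ^ p` -/
def JT (p : ℕ) (a b : Tm) : Tm := .add (pw a p) (.mul .tt (pw b p))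

/-- `a ^ p + t b ^ p = c` -/
def JE (p : ℕ) (a b c : Tm) : Fo := .eq (JT p a b) c

/-- `x_1` is the `i`-th rest of `x_0` -/
def RF (p : ℕ) : ℕ → Fo
  | 0 => .eq (.var 0) (.var 1)
  | i + 1 => .ex 2 (.and (.ex 1 (.and (.eq (.var 1) (.var 2)) (RF p i)))
      (.ex 0 (JE p (.var 0) (.var 1) (.var 2))))

/-- `x_1` is the `i`-th component of `x_0` -/
def VF (p i : ℕ) : Fo :=
  .ex 2 (.and (.ex 1 (.and (.eq (.var 1) (.var 2)) (RF p i)))
    (.ex 0 (JE p (.var 1) (.var 0) (.var 2))))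

/-- `x_1` has the same components as `x_0`, with the possible exception of the `i`-th one -/
def SF (p : ℕ) : ℕ → Fo
  | 0 => .ex 2 (.and (.ex 1 (JE p (.var 1) (.var 2) (.var 0)))
      (.ex 0 (JE p (.var 0) (.var 2) (.var 1))))
  | i + 1 => .and
      (.ex 2 (.and (.ex 1 (JE p (.var 2) (.var 1) (.var 0)))
        (.ex 0 (JE p (.var 2) (.var 0) (.var 1)))))
      (.ex 2 (.and (.ex 1 (JE p (.var 1) (.var 2) (.var 0)))
        (.ex 0 (.and (.ex 2 (JE p (.var 2) (.var 0) (.var 1)))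
          (.ex 1 (.and (.eq (.var 1) (.var 0))
            (.ex 0 (.and (.eq (.var 0) (.var 2)) (SF p i)))))))))

/-- `x_0` has `n` components -/
def NF (p : ℕ) : ℕ → Fo
  | 0 => .eq (.var 0) (.var 0)
  | n + 1 => .ex 1 (.and (.ex 2 (JE p (.var 2) (.var 1) (.var 0)))
      (.ex 0 (.and (.eq (.var 0) (.var 1)) (NF p n))))

/-- `x_2` is the pair of the `i`-th and the `j`-th component of `x_0` -/
def QF (p i j : ℕ) : Fo :=
  .and (.ex 1 (.and (VF p i) (.ex 0 (JE p (.var 1) (.var 0) (.var 2)))))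
    (.ex 1 (.and (VF p j) (.ex 0 (JE p (.var 0) (.var 1) (.var 2)))))

/-- `x_1` is the sum of the components of the pair `x_2` -/
def SumF (p : ℕ) : Fo := .ex 0 (JE p (.var 0) (.sub (.var 1) (.var 0)) (.var 2))

/-- `x_1` is the product of the components of the pair `x_2` -/
def ProdF (p : ℕ) : Fo :=
  .neg (.and
    (.neg (.ex 0 (.and (.neg (.eq (.var 0) .zero))
      (.eq (.add (.mul (pw (.var 0) p) (pw (.var 0) p)) (.mul .tt (pw (.var 1) p)))
        (.mul (.var 2) (pw (.var 0) p))))))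
    (.neg (.and (.eq (.var 1) .zero) (.ex 0 (JE p .zero (.var 0) (.var 2))))))

/-- the translation; the values of the variables are the components of `x_0` -/
def TF (p : ℕ) : Fm → Fo
  | .eq i j => .ex 1 (.and (VF p i) (VF p j))
  | .one i => .ex 1 (.and (VF p i) (.eq (.var 1) .one))
  | .add i j k => .ex 2 (.and (QF p i j) (.ex 1 (.and (VF p k) (SumF p))))
  | .mul i j k => .ex 2 (.and (QF p i j) (.ex 1 (.and (VF p k) (ProdF p))))
  | .val i => .ex 1 (.and (VF p i) (.val (.var 1)))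
  | .neg φ => .neg (TF p φ)
  | .and φ ψ => .and (TF p φ) (TF p ψ)
  | .ex i φ => .ex 1 (.and (SF p i) (.ex 0 (.and (.eq (.var 0) (.var 1)) (TF p φ))))

/-- the sentence: for some code `x_0` with the `0`-th component `t` the translation holds -/
def FinF (p : ℕ) (φ : Fm) : Fo :=
  .ex 0 (.and (NF p (φ.code + 1)) (.and (.ex 1 (.and (.eq (.var 1) .tt) (VF p 0))) (TF p φ)))

/-! ## Meaning -/

section

variable {K : Type} (J : K → K → K)

/-- injective pairing -/
def Inj (J : K → K → K) : Prop := ∀ x y x' y' : K, J x y = J x' y' → x = x' ∧ y = y'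

def Rst : ℕ → K → K → Prop
  | 0, x, y => x = y
  | i + 1, x, y => ∃ z, Rst i x z ∧ ∃ a, J a y = z

def Hd (i : ℕ) (x y : K) : Prop := ∃ z, Rst J i x z ∧ ∃ b, J y b = z

def Sm : ℕ → K → K → Prop
  | 0, x, y => ∃ z, (∃ a, J a z = x) ∧ ∃ b, J b z = y
  | i + 1, x, y => (∃ a, (∃ r, J a r = x) ∧ ∃ r, J a r = y) ∧
      ∃ r, (∃ a, J a r = x) ∧ ∃ r', (∃ a, J a r' = y) ∧ Sm i r r'

def Nf : ℕ → K → Prop
  | 0, _ => True
  | n + 1, x => ∃ y, (∃ a, J a y = x) ∧ Nf n y

/-- `x` codes the values `v 0, ..., v (n - 1)` -/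
def Cod : ℕ → K → (ℕ → K) → Prop
  | 0, _, _ => True
  | n + 1, x, v => ∃ r, J (v 0) r = x ∧ Cod n r (fun i => v (i + 1))

end

/-- the pairing of a ring -/
def JK {K : Type} [CommRing K] (p : ℕ) (t : K) (x y : K) : K := x ^ p + t * y ^ p

/-! ## Statements of the parts -/

/-- FV-ABS: the combinatorics of codes (`J` injective) -/
def S_ABS : Prop := ∀ (K : Type) (J : K → K → K), Inj J →
  (∀ (n : ℕ) (x : K) (v : ℕ → K), Cod J n x v → ∀ i, i < n → ∀ y, (Hd J i x y ↔ y = v i)) ∧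
  (∀ (n : ℕ) (x y : K) (v : ℕ → K), Cod J n x v → ∀ i, i < n → Sm J i x y →
    ∃ b, Cod J n y (Function.update v i b)) ∧
  (∀ (n : ℕ) (x : K) (v : ℕ → K) (b : K), Cod J n x v → ∀ i, i < n →
    ∃ y, Sm J i x y ∧ Cod J n y (Function.update v i b)) ∧
  (∀ (n : ℕ) (x : K), Nf J n x ↔ ∃ v, Cod J n x v) ∧
  (∀ (n : ℕ) (v : ℕ → K), ∃ x, Cod J n x v)

/-- FV-SEM: meaning of the basic formulas -/
def S_SEM : Prop := ∀ (K : Type) [Field K] (O : Set K) (p : ℕ) (t : K), p ≠ 0 →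
  ∀ w : ℕ → K,
  (∀ i, (VF p i).Tr O t w ↔ Hd (JK p t) i (w 0) (w 1)) ∧
  (∀ i, (SF p i).Tr O t w ↔ Sm (JK p t) i (w 0) (w 1)) ∧
  (∀ n, (NF p n).Tr O t w ↔ Nf (JK p t) n (w 0)) ∧
  (∀ i j, (QF p i j).Tr O t w ↔ (∃ a, Hd (JK p t) i (w 0) a ∧ ∃ b, JK p t a b = w 2) ∧
    ∃ b, Hd (JK p t) j (w 0) b ∧ ∃ a, JK p t a b = w 2) ∧
  ((SumF p).Tr O t w ↔ ∃ a b, JK p t a b = w 2 ∧ a + b = w 1) ∧
  ((ProdF p).Tr O t w ↔ ∃ a b, JK p t a b = w 2 ∧ a * b = w 1)

/-- FV-SYN: three variables, closed -/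
def S_SYN : Prop := ∀ (p : ℕ) (φ : Fm), (FinF p φ).Below 3 ∧ (FinF p φ).fv = ∅

/-- FV-PR: the translation is primitive recursive on codes -/
def S_PR : Prop := ∀ p : ℕ, ∃ F : ℕ → ℕ, Primrec F ∧ ∀ φ : Fm, F φ.code = (FinF p φ).code

/-- FV-MAIN: the translation is correct -/
def S_MAIN : Prop := ∀ (K : Type) [Field K] (O : Set K) (p : ℕ) (t : K), p ≠ 0 →
  Inj (JK p t) → ∀ φ : Fm, φ.fv ⊆ {0} → ∀ v w : ℕ → K, v 0 = t →
    ((FinF p φ).Tr O t w ↔ Sat O φ v)

end Pool.Agent.R621.FV
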