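import Mathlib
import Pool.Agent.R621.FV.Defs

/-! # FV-ABS: the combinatorics of codes -/

set_option autoImplicit false

namespace Pool.Agent.R621.FV

variable {K : Type} (J : K → K → K)

theorem abs_rst (i : ℕ) : ∀ x y : K, Rst J (i + 1) x y ↔ ∃ a r, J a r = x ∧ Rst J i r y := by
  induction i with
  | zero =>
    intro x y
    constructor
    · rintro ⟨z, hz, a, ha⟩
      have hz' : x = z := hz
      exact ⟨a, y, ha.trans hz'.symm, rfl⟩
    · rintro ⟨a, r, h, hr⟩
      have hr' : r = y := hr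
      subst hr'
      exact ⟨x, rfl, a, h⟩
  | succ i ih =>
    intro x y
    constructor
    · rintro ⟨z, hz, b, hb⟩
      obtain ⟨a, r, h1, h2⟩ := (ih x z).1 hz
      exact ⟨a, r, h1, z, h2, b, hb⟩
    · rintro ⟨a, r, h1, z, h2, b, hb⟩
      exact ⟨z, (ih x z).2 ⟨a, r, h1, h2⟩, b, hb⟩

theorem abs_hd_zero (x y : K) : Hd J 0 x y ↔ ∃ b, J y b = x := by
  constructor
  · rintro ⟨z, hz, b, hb⟩
    have hz' : x = z := hz
    exact ⟨b, hb.trans hz'.symm⟩
  · rintro ⟨b, hb⟩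
    exact ⟨x, rfl, b, hb⟩

theorem abs_hd_succ (i : ℕ) (x y : K) : Hd J (i + 1) x y ↔ ∃ a r, J a r = x ∧ Hd J i r y := by
  constructor
  · rintro ⟨z, hz, b, hb⟩
    obtain ⟨a, r, h1, h2⟩ := (abs_rst J i x z).1 hz
    exact ⟨a, r, h1, z, h2, b, hb⟩
  · rintro ⟨a, r, h1, z, h2, b, hb⟩
    exact ⟨z, (abs_rst J i x z).2 ⟨a, r, h1, h2⟩, b, hb⟩

theorem abs_shift_zero (v : ℕ → K) (b : K) :
    (fun k => Function.update v 0 b (k + 1)) = fun k => v (k + 1) := by
  funext k
  exact Function.update_of_ne (by omega) _ _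

theorem abs_shift_succ (v : ℕ → K) (i : ℕ) (b : K) :
    (fun k => Function.update v (i + 1) b (k + 1)) =
      Function.update (fun k => v (k + 1)) i b := by
  funext k
  by_cases h : k = i
  · subst h
    simp
  · rw [Function.update_of_ne (by omega), Function.update_of_ne h]

theorem abs1 (hJ : Inj J) : ∀ (n : ℕ) (x : K) (v : ℕ → K), Cod J n x v → ∀ i, i < n → ∀ y,
    (Hd J i x y ↔ y = v i) := by
  intro n
  induction n with
  | zero => intro x v _ i hi; omega
  | succ n ih =>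
    intro x v hc i hi y
    obtain ⟨r, hr, hc'⟩ := hc
    cases i with
    | zero =>
      rw [abs_hd_zero]
      constructor
      · rintro ⟨b, hb⟩
        exact (hJ _ _ _ _ (hb.trans hr.symm)).1
      · rintro rfl
        exact ⟨r, hr⟩
    | succ i =>
      rw [abs_hd_succ]
      have h := ih r _ hc' i (by omega) y
      constructor
      · rintro ⟨a, r', h1, h2⟩
        have h3 := (hJ _ _ _ _ (h1.trans hr.symm)).2
        subst h3
        exact h.1 h2
      · intro h4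
        exact ⟨v 0, r, hr, h.2 h4⟩

theorem abs2 (hJ : Inj J) : ∀ (n : ℕ) (x y : K) (v : ℕ → K), Cod J n x v → ∀ i, i < n →
    Sm J i x y → ∃ b, Cod J n y (Function.update v i b) := by
  intro n
  induction n with
  | zero => intro x y v _ i hi; omega
  | succ n ih =>
    intro x y v hc i hi hs
    obtain ⟨r, hr, hc'⟩ := hc
    cases i with
    | zero =>
      obtain ⟨z, ⟨a, ha⟩, b, hb⟩ := hs
      have h3 := (hJ _ _ _ _ (ha.trans hr.symm)).2
      subst h3
      refine ⟨b, z, ?_, ?_⟩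
      · rw [Function.update_self]; exact hb
      · rw [abs_shift_zero]; exact hc'
    | succ i =>
      obtain ⟨⟨a, ⟨r1, h1⟩, r2, h2⟩, r3, ⟨a3, h3⟩, r4, ⟨a4, h4⟩, hs'⟩ := hs
      have e1 := (hJ _ _ _ _ (h1.trans hr.symm)).1
      have e2 := (hJ _ _ _ _ (h3.trans hr.symm)).2
      have e3 := (hJ _ _ _ _ (h4.trans h2.symm)).2
      subst e1 e2 e3
      obtain ⟨b, hb⟩ := ih _ _ _ hc' i (by omega) hs'
      refine ⟨b, r4, ?_, ?_⟩
      · rw [Function.update_of_ne (by omega)]; exact h2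
      · rw [abs_shift_succ]; exact hb

theorem abs3 : ∀ (n : ℕ) (x : K) (v : ℕ → K) (b : K), Cod J n x v → ∀ i, i < n →
    ∃ y, Sm J i x y ∧ Cod J n y (Function.update v i b) := by
  intro n
  induction n with
  | zero => intro x v b _ i hi; omega
  | succ n ih =>
    intro x v b hc i hi
    obtain ⟨r, hr, hc'⟩ := hc
    cases i with
    | zero =>
      refine ⟨J b r, ⟨r, ⟨v 0, hr⟩, b, rfl⟩, r, ?_, ?_⟩
      · rw [Function.update_self]
      · rw [abs_shift_zero]; exact hc'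
    | succ i =>
      obtain ⟨y, hy1, hy2⟩ := ih _ _ b hc' i (by omega)
      refine ⟨J (v 0) y, ⟨⟨v 0, ⟨r, hr⟩, y, rfl⟩, r, ⟨v 0, hr⟩, y, ⟨v 0, rfl⟩, hy1⟩, y, ?_, ?_⟩
      · rw [Function.update_of_ne (by omega)]
      · rw [abs_shift_succ]; exact hy2

theorem abs4 : ∀ (n : ℕ) (x : K), Nf J n x ↔ ∃ v, Cod J n x v := by
  intro n
  induction n with
  | zero => exact fun x => ⟨fun _ => ⟨fun _ => x, trivial⟩, fun _ => trivial⟩
  | succ n ih =>
    intro x
    constructor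
    · rintro ⟨y, ⟨a, ha⟩, hy⟩
      obtain ⟨v, hv⟩ := (ih y).1 hy
      exact ⟨fun k => Nat.casesOn k a v, y, ha, hv⟩
    · rintro ⟨v, r, hr, hc⟩
      exact ⟨r, ⟨v 0, hr⟩, (ih r).2 ⟨_, hc⟩⟩

theorem abs5 : ∀ (n : ℕ) (v : ℕ → K), ∃ x, Cod J n x v := by
  intro n
  induction n with
  | zero => exact fun v => ⟨v 0, trivial⟩
  | succ n ih =>
    intro v
    obtain ⟨r, hr⟩ := ih (fun k => v (k + 1))
    exact ⟨J (v 0) r, r, rfl, hr⟩

theorem t_ABS : S_ABS := fun _ J hJ =>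
  ⟨abs1 J hJ, abs2 J hJ, abs3 J, abs4 J, abs5 J⟩

end Pool.Agent.R621.FV
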