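import Pool.Agent.R621.FV.Defs

/-!
# FV-SEM: meaning of the basic formulas (MP_db9079_lc)
-/

set_option autoImplicit false

namespace Pool.Agent.R621.FV

open Pool.Agent.Y924.EL (Fm Sat)

section

variable {K : Type} [Field K] (O : Set K) (p : ℕ) (t : K)

theorem pw_ev (a : Tm) (v : ℕ → K) (k : ℕ) : (pw a k).ev t v = (a.ev t v) ^ k := by
  induction k with
  | zero => simp [pw, Tm.ev]
  | succ k ih => rw [pw, Tm.ev, ih, pow_succ]

theorem JE_Tr (a b c : Tm) (v : ℕ → K) :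
    (JE p a b c).Tr O t v ↔ JK p t (a.ev t v) (b.ev t v) = c.ev t v := by
  rw [JE, Fo.Tr, JT, Tm.ev, Tm.ev, pw_ev, pw_ev, JK, Tm.ev]

theorem RF_Tr (i : ℕ) : ∀ w : ℕ → K,
    (RF p i).Tr O t w ↔ Rst (JK p t) i (w 0) (w 1) := by
  induction i with
  | zero => intro w; rfl
  | succ i ih =>
    intro w
    simp only [RF, Fo.Tr, JE_Tr, ih, Rst, Tm.ev, Function.update_apply]
    simp

theorem VF_Tr (i : ℕ) (w : ℕ → K) :
    (VF p i).Tr O t w ↔ Hd (JK p t) i (w 0) (w 1) := by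
  simp only [VF, Fo.Tr, JE_Tr, RF_Tr, Hd, Tm.ev, Function.update_apply]
  simp

theorem SF_Tr (i : ℕ) : ∀ w : ℕ → K,
    (SF p i).Tr O t w ↔ Sm (JK p t) i (w 0) (w 1) := by
  induction i with
  | zero =>
    intro w
    simp only [SF, Fo.Tr, JE_Tr, Sm, Tm.ev, Function.update_apply]
    simp
  | succ i ih =>
    intro w
    simp only [SF, Fo.Tr, JE_Tr, ih, Sm, Tm.ev, Function.update_apply]
    simp

theorem NF_Tr (n : ℕ) : ∀ w : ℕ → K,
    (NF p n).Tr O t w ↔ Nf (JK p t) n (w 0) := by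
  induction n with
  | zero => intro w; simp [NF, Fo.Tr, Nf]
  | succ n ih =>
    intro w
    simp only [NF, Fo.Tr, JE_Tr, ih, Nf, Tm.ev, Function.update_apply]
    simp

theorem QF_Tr (i j : ℕ) (w : ℕ → K) :
    (QF p i j).Tr O t w ↔ (∃ a, Hd (JK p t) i (w 0) a ∧ ∃ b, JK p t a b = w 2) ∧
      ∃ b, Hd (JK p t) j (w 0) b ∧ ∃ a, JK p t a b = w 2 := by
  simp only [QF, Fo.Tr, JE_Tr, VF_Tr, Tm.ev, Function.update_apply]
  simp

theorem SumF_Tr (w : ℕ → K) :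
    (SumF p).Tr O t w ↔ ∃ a b, JK p t a b = w 2 ∧ a + b = w 1 := by
  simp only [SumF, Fo.Tr, JE_Tr, Tm.ev, Function.update_apply]
  simp only [if_true, if_false, one_ne_zero, OfNat.ofNat_ne_zero]
  constructor
  · rintro ⟨a, ha⟩
    exact ⟨a, w 1 - a, ha, by ring⟩
  · rintro ⟨a, b, hab, hs⟩
    refine ⟨a, ?_⟩
    rw [← hs, add_sub_cancel_left]
    exact hab

theorem ProdF_Tr (w : ℕ → K) :
    (ProdF p).Tr O t w ↔ ∃ a b, JK p t a b = w 2 ∧ a * b = w 1 := by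
  simp only [ProdF, Fo.Tr, JE_Tr, Tm.ev, pw_ev, Function.update_apply]
  simp only [if_true, if_false, one_ne_zero, OfNat.ofNat_ne_zero]
  rw [not_and_or, not_not, not_not]
  constructor
  · rintro (⟨a, ha, h⟩ | ⟨h1, a, h⟩)
    · refine ⟨a, w 1 / a, ?_, mul_div_cancel₀ _ ha⟩
      have hap : a ^ p ≠ 0 := pow_ne_zero _ ha
      rw [JK, div_pow]
      apply mul_right_cancel₀ hap
      rw [← h, add_mul, mul_assoc t, div_mul_cancel₀ _ hap]
    · exact ⟨0, a, h, by rw [zero_mul, h1]⟩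
  · rintro ⟨a, b, h, hab⟩
    by_cases ha : a = 0
    · right
      subst ha
      exact ⟨by rw [← hab, zero_mul], b, h⟩
    · left
      refine ⟨a, ha, ?_⟩
      rw [← h, ← hab, JK, mul_pow]
      ring

end

theorem t_SEM : S_SEM := by
  intro K _ O p t _ w
  exact ⟨fun i => VF_Tr O p t i w, fun i => SF_Tr O p t i w, fun n => NF_Tr O p t n w,
    fun i j => QF_Tr O p t i j w, SumF_Tr O p t w, ProdF_Tr O p t w⟩

end Pool.Agent.R621.FV
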