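import Pool.Agent.R621.FV.Defs

set_option autoImplicit false

namespace Pool.Agent.R621.FV

open Pool.Agent.Y924.EL (Fm Sat)

namespace Syn

lemma fex {i : ℕ} {φ : Fo} {S : Finset ℕ} : (Fo.ex i φ).fv ⊆ S ↔ φ.fv ⊆ insert i S :=
  Finset.subset_insert_iff.symm

lemma fand {φ ψ : Fo} {S : Finset ℕ} : (Fo.and φ ψ).fv ⊆ S ↔ φ.fv ⊆ S ∧ ψ.fv ⊆ S :=
  Finset.union_subset_iff

lemma fneg {φ : Fo} {S : Finset ℕ} : (Fo.neg φ).fv ⊆ S ↔ φ.fv ⊆ S := Iff.rfl

lemma feq {a b : Tm} {S : Finset ℕ} : (Fo.eq a b).fv ⊆ S ↔ a.fv ⊆ S ∧ b.fv ⊆ S :=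
  Finset.union_subset_iff

lemma tadd {a b : Tm} {S : Finset ℕ} : (Tm.add a b).fv ⊆ S ↔ a.fv ⊆ S ∧ b.fv ⊆ S :=
  Finset.union_subset_iff

lemma tmul {a b : Tm} {S : Finset ℕ} : (Tm.mul a b).fv ⊆ S ↔ a.fv ⊆ S ∧ b.fv ⊆ S :=
  Finset.union_subset_iff

lemma pw_fv (a : Tm) (k : ℕ) : (pw a k).fv ⊆ a.fv := by
  induction k with
  | zero => exact Finset.empty_subset _
  | succ k ih => exact Finset.union_subset ih (Finset.Subset.refl _)

lemma pw_below {a : Tm} (ha : a.Below 3) (k : ℕ) : (pw a k).Below 3 := by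
  induction k with
  | zero => trivial
  | succ k ih => exact ⟨ih, ha⟩

lemma JE_fv (p : ℕ) (a b c : Tm) : (JE p a b c).fv ⊆ a.fv ∪ b.fv ∪ c.fv := by
  refine Finset.union_subset (Finset.union_subset ?_ (Finset.union_subset ?_ ?_)) ?_
  · exact (pw_fv a p).trans (Finset.subset_union_left.trans Finset.subset_union_left)
  · exact Finset.empty_subset _
  · exact (pw_fv b p).trans (Finset.subset_union_right.trans Finset.subset_union_left)
  · exact Finset.subset_union_right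

lemma JE_below {p : ℕ} {a b c : Tm} (ha : a.Below 3) (hb : b.Below 3) (hc : c.Below 3) :
    (JE p a b c).Below 3 :=
  ⟨⟨pw_below ha p, trivial, pw_below hb p⟩, hc⟩

lemma l0 : (0 : ℕ) < 3 := by norm_num
lemma l1 : (1 : ℕ) < 3 := by norm_num
lemma l2 : (2 : ℕ) < 3 := by norm_num
lemma v0 : (Tm.var 0).Below 3 := l0
lemma v1 : (Tm.var 1).Below 3 := l1

lemma RF_fv (p i : ℕ) : (RF p i).fv ⊆ {0, 1} := by
  induction i with
  | zero => exact (show (Fo.eq (.var 0) (.var 1)).fv ⊆ {0, 1} by decide)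
  | succ i ih =>
    simp only [RF, fex, fand]
    refine ⟨⟨by decide, ih.trans (by decide)⟩, (JE_fv _ _ _ _).trans (by decide)⟩

lemma RF_below (p i : ℕ) : (RF p i).Below 3 := by
  induction i with
  | zero => exact ⟨l0, l1⟩
  | succ i ih => exact ⟨l2, ⟨l1, ⟨l1, l2⟩, ih⟩, l0, JE_below l0 l1 l2⟩

lemma VF_fv (p i : ℕ) : (VF p i).fv ⊆ {0, 1} := by
  simp only [VF, fex, fand]
  exact ⟨⟨by decide, (RF_fv p i).trans (by decide)⟩, (JE_fv _ _ _ _).trans (by decide)⟩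

lemma VF_below (p i : ℕ) : (VF p i).Below 3 :=
  ⟨l2, ⟨l1, ⟨l1, l2⟩, RF_below p i⟩, l0, JE_below l1 l0 l2⟩

lemma SF_fv (p i : ℕ) : (SF p i).fv ⊆ {0, 1} := by
  induction i with
  | zero =>
    simp only [SF, fex, fand]
    exact ⟨(JE_fv _ _ _ _).trans (by decide), (JE_fv _ _ _ _).trans (by decide)⟩
  | succ i ih =>
    simp only [SF, fex, fand]
    exact ⟨⟨(JE_fv _ _ _ _).trans (by decide), (JE_fv _ _ _ _).trans (by decide)⟩,
      (JE_fv _ _ _ _).trans (by decide), (JE_fv _ _ _ _).trans (by decide), by decide,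
      by decide, ih.trans (by decide)⟩

lemma SF_below (p i : ℕ) : (SF p i).Below 3 := by
  induction i with
  | zero => exact ⟨l2, ⟨l1, JE_below l1 l2 l0⟩, l0, JE_below l0 l2 l1⟩
  | succ i ih =>
    exact ⟨⟨l2, ⟨l1, JE_below l2 l1 l0⟩, l0, JE_below l2 l0 l1⟩,
      l2, ⟨l1, JE_below l1 l2 l0⟩, l0, ⟨l2, JE_below l2 l0 l1⟩, l1, ⟨l1, l0⟩, l0, ⟨l0, l2⟩, ih⟩

lemma NF_fv (p n : ℕ) : (NF p n).fv ⊆ {0} := by
  induction n with
  | zero => exact (show (Fo.eq (.var 0) (.var 0)).fv ⊆ {0} by decide)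
  | succ n ih =>
    simp only [NF, fex, fand]
    exact ⟨(JE_fv _ _ _ _).trans (by decide), by decide, ih.trans (by decide)⟩

lemma NF_below (p n : ℕ) : (NF p n).Below 3 := by
  induction n with
  | zero => exact ⟨l0, l0⟩
  | succ n ih => exact ⟨l1, ⟨l2, JE_below l2 l1 l0⟩, l0, ⟨l0, l1⟩, ih⟩

lemma QF_fv (p i j : ℕ) : (QF p i j).fv ⊆ {0, 2} := by
  simp only [QF, fex, fand]
  exact ⟨⟨(VF_fv p i).trans (by decide), (JE_fv _ _ _ _).trans (by decide)⟩,
    (VF_fv p j).trans (by decide), (JE_fv _ _ _ _).trans (by decide)⟩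

lemma QF_below (p i j : ℕ) : (QF p i j).Below 3 :=
  ⟨⟨l1, VF_below p i, l0, JE_below l1 l0 l2⟩, l1, VF_below p j, l0, JE_below l0 l1 l2⟩

lemma SumF_fv (p : ℕ) : (SumF p).fv ⊆ {1, 2} := by
  simp only [SumF, fex]
  exact (JE_fv _ _ _ _).trans (by decide)

lemma SumF_below (p : ℕ) : (SumF p).Below 3 := ⟨l0, JE_below l0 ⟨l1, l0⟩ l2⟩

lemma ProdF_fv (p : ℕ) : (ProdF p).fv ⊆ {1, 2} := by
  simp only [ProdF, fex, fand, fneg, feq, tadd, tmul]
  exact ⟨⟨⟨by decide, by decide⟩, ⟨⟨(pw_fv _ _).trans (by decide), (pw_fv _ _).trans (by decide)⟩,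
    by decide, (pw_fv _ _).trans (by decide)⟩, by decide, (pw_fv _ _).trans (by decide)⟩,
    ⟨by decide, by decide⟩, (JE_fv _ _ _ _).trans (by decide)⟩

lemma ProdF_below (p : ℕ) : (ProdF p).Below 3 :=
  ⟨⟨l0, ⟨l0, trivial⟩, ⟨⟨pw_below v0 p, pw_below v0 p⟩, trivial, pw_below v1 p⟩, l2,
    pw_below v0 p⟩, ⟨l1, trivial⟩, l0, JE_below trivial l0 l2⟩

lemma TF_fv (p : ℕ) (φ : Fm) : (TF p φ).fv ⊆ {0} := by
  induction φ with
  | eq i j =>
    simp only [TF, fex, fand]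
    exact ⟨(VF_fv p i).trans (by decide), (VF_fv p j).trans (by decide)⟩
  | one i =>
    simp only [TF, fex, fand]
    exact ⟨(VF_fv p i).trans (by decide), by decide⟩
  | add i j k =>
    simp only [TF, fex, fand]
    exact ⟨(QF_fv p i j).trans (by decide), (VF_fv p k).trans (by decide),
      (SumF_fv p).trans (by decide)⟩
  | mul i j k =>
    simp only [TF, fex, fand]
    exact ⟨(QF_fv p i j).trans (by decide), (VF_fv p k).trans (by decide),
      (ProdF_fv p).trans (by decide)⟩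
  | val i =>
    simp only [TF, fex, fand]
    exact ⟨(VF_fv p i).trans (by decide), by decide⟩
  | neg φ ih => exact ih
  | and φ ψ ih1 ih2 => exact Finset.union_subset ih1 ih2
  | ex i φ ih =>
    simp only [TF, fex, fand]
    exact ⟨(SF_fv p i).trans (by decide), by decide, ih.trans (by decide)⟩

lemma TF_below (p : ℕ) (φ : Fm) : (TF p φ).Below 3 := by
  induction φ with
  | eq i j => exact ⟨l1, VF_below p i, VF_below p j⟩
  | one i => exact ⟨l1, VF_below p i, l1, trivial⟩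
  | add i j k => exact ⟨l2, QF_below p i j, l1, VF_below p k, SumF_below p⟩
  | mul i j k => exact ⟨l2, QF_below p i j, l1, VF_below p k, ProdF_below p⟩
  | val i => exact ⟨l1, VF_below p i, l1⟩
  | neg φ ih => exact ih
  | and φ ψ ih1 ih2 => exact ⟨ih1, ih2⟩
  | ex i φ ih => exact ⟨l1, SF_below p i, l0, ⟨l0, l1⟩, ih⟩

end Syn

open Syn in
theorem t_SYN : S_SYN := by
  intro p φ
  refine ⟨⟨l0, NF_below p _, ⟨l1, ⟨l1, trivial⟩, VF_below p 0⟩, TF_below p φ⟩, ?_⟩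
  rw [← Finset.subset_empty]
  simp only [FinF, fex, fand]
  exact ⟨(NF_fv p _).trans (by decide), ⟨by decide, (VF_fv p 0).trans (by decide)⟩,
    (TF_fv p φ).trans (by decide)⟩

end Pool.Agent.R621.FV
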