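import Pool.Agent.R621.FV.Main
import Pool.Agent.R621.FV.Abs
import Pool.Agent.R621.FV.SEM
import Pool.Agent.R621.FV.Syn
import Pool.Agent.R621.EL.Top

/-!
# The sentences of project EL in three variables

The translation to three variables is applied to the sentences `sent p m`; the codes of the results
are an elementary function of `m`.
-/

set_option autoImplicit false

namespace Pool.Agent.R621.FV

open Pool.Agent.Y924.EL
open Function

/-! ## The constant `t` is replaced by a term -/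

/-- replace `t` by `c` -/
def Tm.sb : Tm → Tm → Tm
  | .var i, _ => .var i
  | .zero, _ => .zero
  | .one, _ => .one
  | .tt, c => c
  | .add a b, c => .add (a.sb c) (b.sb c)
  | .sub a b, c => .sub (a.sb c) (b.sb c)
  | .mul a b, c => .mul (a.sb c) (b.sb c)

def Fo.sb (c : Tm) : Fo → Fo
  | .eq a b => .eq (a.sb c) (b.sb c)
  | .val a => .val (a.sb c)
  | .neg φ => .neg (φ.sb c)
  | .and φ ψ => .and (φ.sb c) (ψ.sb c)
  | .ex i φ => .ex i (φ.sb c)

/-- no constant `t` -/
def Tm.NoT : Tm → Prop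
  | .tt => False
  | .add a b => a.NoT ∧ b.NoT
  | .sub a b => a.NoT ∧ b.NoT
  | .mul a b => a.NoT ∧ b.NoT
  | _ => True

def Fo.NoT : Fo → Prop
  | .eq a b => a.NoT ∧ b.NoT
  | .val a => a.NoT
  | .neg φ => φ.NoT
  | .and φ ψ => φ.NoT ∧ ψ.NoT
  | .ex _ φ => φ.NoT

/-- the predicate of the valuation ring does not occur -/
def Fo.NoVal : Fo → Prop
  | .eq _ _ => True
  | .val _ => False
  | .neg φ => φ.NoVal
  | .and φ ψ => φ.NoVal ∧ ψ.NoVal
  | .ex _ φ => φ.NoVal

theorem ev_sb {K : Type} [CommRing K] (c : Tm) (t : K) (w : ℕ → K) (a : Tm) :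
    (a.sb c).ev t w = a.ev (c.ev t w) w := by
  induction a with
  | var i => rfl
  | zero => rfl
  | one => rfl
  | tt => rfl
  | add a b ih1 ih2 => simp only [Tm.sb, Tm.ev, ih1, ih2]
  | sub a b ih1 ih2 => simp only [Tm.sb, Tm.ev, ih1, ih2]
  | mul a b ih1 ih2 => simp only [Tm.sb, Tm.ev, ih1, ih2]

theorem tr_sb {K : Type} [CommRing K] (O : Set K) (c : Tm) (t : K)
    (hc : ∀ i, i < 3 → ∀ (a : K) (w : ℕ → K), c.ev t (update w i a) = c.ev t w) (φ : Fo) :
    φ.Below 3 → ∀ w : ℕ → K, ((φ.sb c).Tr O t w ↔ φ.Tr O (c.ev t w) w) := by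
  induction φ with
  | eq a b =>
    intro _ w
    show (a.sb c).ev t w = (b.sb c).ev t w ↔ _
    rw [ev_sb, ev_sb]
    rfl
  | val a =>
    intro _ w
    show (a.sb c).ev t w ∈ O ↔ _
    rw [ev_sb]
    rfl
  | neg φ ih => exact fun h w => not_congr (ih h w)
  | and φ ψ ih1 ih2 => exact fun h w => and_congr (ih1 h.1 w) (ih2 h.2 w)
  | ex i φ ih =>
    rintro ⟨hi, h⟩ w
    refine exists_congr fun a => ?_
    rw [ih h, hc i hi]

theorem below_sb_tm {k : ℕ} {c : Tm} (hc : c.Below k) {a : Tm} (h : a.Below k) :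
    (a.sb c).Below k := by
  induction a with
  | var i => exact h
  | zero => trivial
  | one => trivial
  | tt => exact hc
  | add a b ih1 ih2 => exact ⟨ih1 h.1, ih2 h.2⟩
  | sub a b ih1 ih2 => exact ⟨ih1 h.1, ih2 h.2⟩
  | mul a b ih1 ih2 => exact ⟨ih1 h.1, ih2 h.2⟩

theorem below_sb {k : ℕ} {c : Tm} (hc : c.Below k) {φ : Fo} (h : φ.Below k) :
    (φ.sb c).Below k := by
  induction φ with
  | eq a b => exact ⟨below_sb_tm hc h.1, below_sb_tm hc h.2⟩
  | val a => exact below_sb_tm hc h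
  | neg φ ih => exact ih h
  | and φ ψ ih1 ih2 => exact ⟨ih1 h.1, ih2 h.2⟩
  | ex i φ ih => exact ⟨h.1, ih h.2⟩

theorem below_mono_tm {k l : ℕ} (hkl : k ≤ l) {a : Tm} (h : a.Below k) : a.Below l := by
  induction a with
  | var i => exact lt_of_lt_of_le h hkl
  | zero => trivial
  | one => trivial
  | tt => trivial
  | add a b ih1 ih2 => exact ⟨ih1 h.1, ih2 h.2⟩
  | sub a b ih1 ih2 => exact ⟨ih1 h.1, ih2 h.2⟩
  | mul a b ih1 ih2 => exact ⟨ih1 h.1, ih2 h.2⟩

theorem below_mono {k l : ℕ} (hkl : k ≤ l) {φ : Fo} (h : φ.Below k) : φ.Below l := by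
  induction φ with
  | eq a b => exact ⟨below_mono_tm hkl h.1, below_mono_tm hkl h.2⟩
  | val a => exact below_mono_tm hkl h
  | neg φ ih => exact ih h
  | and φ ψ ih1 ih2 => exact ⟨ih1 h.1, ih2 h.2⟩
  | ex i φ ih => exact ⟨lt_of_lt_of_le h.1 hkl, ih h.2⟩

theorem fv_sb_tm {c : Tm} (a : Tm) : (a.sb c).fv ⊆ a.fv ∪ c.fv := by
  induction a with
  | var i => exact Finset.subset_union_left
  | zero => exact Finset.empty_subset _
  | one => exact Finset.empty_subset _
  | tt => exact Finset.subset_union_right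
  | add a b ih1 ih2 =>
    exact Finset.union_subset (ih1.trans (Finset.union_subset_union_left Finset.subset_union_left))
      (ih2.trans (Finset.union_subset_union_left Finset.subset_union_right))
  | sub a b ih1 ih2 =>
    exact Finset.union_subset (ih1.trans (Finset.union_subset_union_left Finset.subset_union_left))
      (ih2.trans (Finset.union_subset_union_left Finset.subset_union_right))
  | mul a b ih1 ih2 =>
    exact Finset.union_subset (ih1.trans (Finset.union_subset_union_left Finset.subset_union_left))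
      (ih2.trans (Finset.union_subset_union_left Finset.subset_union_right))

theorem fv_sb {c : Tm} (φ : Fo) : (φ.sb c).fv ⊆ φ.fv ∪ c.fv := by
  induction φ with
  | eq a b =>
    exact Finset.union_subset
      ((fv_sb_tm a).trans (Finset.union_subset_union_left Finset.subset_union_left))
      ((fv_sb_tm b).trans (Finset.union_subset_union_left Finset.subset_union_right))
  | val a => exact fv_sb_tm a
  | neg φ ih => exact ih
  | and φ ψ ih1 ih2 =>
    exact Finset.union_subset (ih1.trans (Finset.union_subset_union_left Finset.subset_union_left))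
      (ih2.trans (Finset.union_subset_union_left Finset.subset_union_right))
  | ex i φ ih =>
    intro j hj
    have h1 : j ∈ ((φ.sb c).fv).erase i := hj
    rw [Finset.mem_erase] at h1
    have h2 := ih h1.2
    rw [Finset.mem_union] at h2 ⊢
    rcases h2 with h2 | h2
    · exact Or.inl (Finset.mem_erase.2 ⟨h1.1, h2⟩)
    · exact Or.inr h2

theorem noT_sb_tm {c : Tm} (hc : c.NoT) (a : Tm) : (a.sb c).NoT := by
  induction a with
  | var i => trivial
  | zero => trivial
  | one => trivial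
  | tt => exact hc
  | add a b ih1 ih2 => exact ⟨ih1, ih2⟩
  | sub a b ih1 ih2 => exact ⟨ih1, ih2⟩
  | mul a b ih1 ih2 => exact ⟨ih1, ih2⟩

theorem noT_sb {c : Tm} (hc : c.NoT) (φ : Fo) : (φ.sb c).NoT := by
  induction φ with
  | eq a b => exact ⟨noT_sb_tm hc a, noT_sb_tm hc b⟩
  | val a => exact noT_sb_tm hc a
  | neg φ ih => exact ih
  | and φ ψ ih1 ih2 => exact ⟨ih1, ih2⟩
  | ex i φ ih => exact ih

theorem noT_pw (k : ℕ) : (pw (.var 0) k).NoT := by
  induction k with
  | zero => trivial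
  | succ k ih => exact ⟨ih, trivial⟩

theorem noVal_sb {c : Tm} {φ : Fo} (h : φ.NoVal) : (φ.sb c).NoVal := by
  induction φ with
  | eq a b => trivial
  | val a => exact h
  | neg φ ih => exact ih h
  | and φ ψ ih1 ih2 => exact ⟨ih1 h.1, ih2 h.2⟩
  | ex i φ ih => exact ih h

/-! ## The translation of ring formulas does not mention the valuation -/

theorem noVal_RF (p i : ℕ) : (RF p i).NoVal := by
  induction i with
  | zero => trivial
  | succ i ih => exact ⟨⟨trivial, ih⟩, trivial⟩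

theorem noVal_VF (p i : ℕ) : (VF p i).NoVal := ⟨⟨trivial, noVal_RF p i⟩, trivial⟩

theorem noVal_SF (p i : ℕ) : (SF p i).NoVal := by
  induction i with
  | zero => exact ⟨trivial, trivial⟩
  | succ i ih => exact ⟨⟨trivial, trivial⟩, trivial, trivial, trivial, trivial, ih⟩

theorem noVal_NF (p n : ℕ) : (NF p n).NoVal := by
  induction n with
  | zero => trivial
  | succ n ih => exact ⟨trivial, trivial, ih⟩

theorem noVal_QF (p i j : ℕ) : (QF p i j).NoVal :=
  ⟨⟨noVal_VF p i, trivial⟩, noVal_VF p j, trivial⟩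

theorem noVal_TF (p k : ℕ) (φ : Fm) : φ.InRing k → (TF p φ).NoVal := by
  induction φ with
  | eq i j => exact fun _ => ⟨noVal_VF p i, noVal_VF p j⟩
  | one i => exact fun _ => ⟨noVal_VF p i, trivial⟩
  | add i j k => exact fun _ => ⟨noVal_QF p i j, noVal_VF p k, trivial⟩
  | mul i j k =>
    exact fun _ => ⟨noVal_QF p i j, noVal_VF p k, ⟨⟨trivial, trivial⟩, trivial, trivial⟩⟩
  | val i => exact fun h => h.elim
  | neg φ ih => exact fun h => ih h
  | and φ ψ ih1 ih2 => exact fun h => ⟨ih1 h.1, ih2 h.2⟩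
  | ex i φ ih => exact fun h => ⟨noVal_SF p i, trivial, ih h.2⟩

theorem varLt_ring (k : ℕ) (φ : Fm) : φ.InRing k → VarLt k φ := by
  induction φ with
  | eq i j => exact fun h => h
  | one i => exact fun h => h
  | add i j k => exact fun h => h
  | mul i j k => exact fun h => h
  | val i => exact fun h => h.elim
  | neg φ ih => exact fun h => ih h
  | and φ ψ ih1 ih2 => exact fun h => ⟨ih1 h.1, ih2 h.2⟩
  | ex i φ ih => exact fun h => ⟨h.1, ih h.2⟩

/-! ## Codes -/

section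

variable (p : ℕ) (c : Tm)

/-- the code of the translation -/
def tc (φ : Fm) : ℕ := ((TF p φ).sb c).code

/-- the code of `x_0 = x_1` -/
def c01 : ℕ := (Fo.eq (.var 0) (.var 1)).code

theorem tc_neg (φ : Fm) : tc p c (.neg φ) = Nat.pair 5 (tc p c φ) := rfl

theorem tc_and (φ ψ : Fm) :
    tc p c (.and φ ψ) = Nat.pair 6 (Nat.pair (tc p c φ) (tc p c ψ)) := rfl

theorem tc_ex (i : ℕ) (φ : Fm) :
    tc p c (.ex i φ) = Nat.pair 7 (Nat.pair 1 (Nat.pair 6 (Nat.pair ((SF p i).sb c).code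
      (Nat.pair 7 (Nat.pair 0 (Nat.pair 6 (Nat.pair c01 (tc p c φ)))))))) := rfl

/-- the codes of five translations as one number -/
def st3 (h : Fin 5 → Fm) : ℕ :=
  Nat.pair (tc p c (h 0)) (Nat.pair (tc p c (h 1)) (Nat.pair (tc p c (h 2))
    (Nat.pair (tc p c (h 3)) (tc p c (h 4)))))

def cd3 : Tp → ℕ → ℕ
  | .hole i, s => comp5 i s
  | .atom φ, _ => tc p c φ
  | .neg τ, s => Nat.pair 5 (cd3 τ s)
  | .and τ υ, s => Nat.pair 6 (Nat.pair (cd3 τ s) (cd3 υ s))
  | .ex i τ, s => Nat.pair 7 (Nat.pair 1 (Nat.pair 6 (Nat.pair ((SF p i).sb c).code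
      (Nat.pair 7 (Nat.pair 0 (Nat.pair 6 (Nat.pair c01 (cd3 τ s))))))))

def cdT3 (T : Fin 5 → Tp) (s : ℕ) : ℕ :=
  Nat.pair (cd3 p c (T 0) s) (Nat.pair (cd3 p c (T 1) s) (Nat.pair (cd3 p c (T 2) s)
    (Nat.pair (cd3 p c (T 3) s) (cd3 p c (T 4) s))))

theorem comp5_st3 (h : Fin 5 → Fm) (i : Fin 5) : comp5 i (st3 p c h) = tc p c (h i) := by
  fin_cases i <;> simp [comp5, st3]

theorem tc_inst (h : Fin 5 → Fm) (τ : Tp) : tc p c (τ.inst h) = cd3 p c τ (st3 p c h) := by
  induction τ with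
  | hole i => exact (comp5_st3 p c h i).symm
  | atom φ => rfl
  | neg τ ih => rw [Tp.inst, tc_neg, ih, cd3]
  | and τ υ ih1 ih2 => rw [Tp.inst, tc_and, ih1, ih2, cd3]
  | ex i τ ih => rw [Tp.inst, tc_ex, ih, cd3]

theorem st3_stepH (T : Fin 5 → Tp) (h : Fin 5 → Fm) :
    st3 p c (stepH T h) = cdT3 p c T (st3 p c h) := by
  simp only [st3, stepH, cdT3, tc_inst]

theorem st3_iter (T : Fin 5 → Tp) (m : ℕ) (h : Fin 5 → Fm) :
    st3 p c ((stepH T)^[m] h) = (cdT3 p c T)^[m] (st3 p c h) := by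
  have h1 : Function.Semiconj (st3 p c) (stepH T) (cdT3 p c T) := fun h => st3_stepH p c T h
  exact (h1.iterate_right m).eq h

theorem good_cd3 (τ : Tp) : E3 (cd3 p c τ) ∧ Pb (cd3 p c τ) := by
  induction τ with
  | hole i => exact ⟨e3_comp5 i, pb_of_le (comp5_le i)⟩
  | atom φ => exact ⟨e3_const _, pb_const _⟩
  | neg τ ih => exact ⟨E3.pair (e3_const 5) ih.1, pb_pair (pb_const 5) ih.2⟩
  | and τ υ ih1 ih2 =>
    exact ⟨E3.pair (e3_const 6) (E3.pair ih1.1 ih2.1), pb_pair (pb_const 6) (pb_pair ih1.2 ih2.2)⟩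
  | ex i τ ih =>
    exact ⟨E3.pair (e3_const 7) (E3.pair (e3_const 1) (E3.pair (e3_const 6) (E3.pair (e3_const _)
      (E3.pair (e3_const 7) (E3.pair (e3_const 0) (E3.pair (e3_const 6)
        (E3.pair (e3_const _) ih.1))))))),
      pb_pair (pb_const 7) (pb_pair (pb_const 1) (pb_pair (pb_const 6) (pb_pair (pb_const _)
      (pb_pair (pb_const 7) (pb_pair (pb_const 0) (pb_pair (pb_const 6)
        (pb_pair (pb_const _) ih.2)))))))⟩

theorem good_cdT3 (T : Fin 5 → Tp) : E3 (cdT3 p c T) ∧ Pb (cdT3 p c T) :=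
  ⟨E3.pair (good_cd3 p c _).1 (E3.pair (good_cd3 p c _).1 (E3.pair (good_cd3 p c _).1
    (E3.pair (good_cd3 p c _).1 (good_cd3 p c _).1))),
   pb_pair (good_cd3 p c _).2 (pb_pair (good_cd3 p c _).2 (pb_pair (good_cd3 p c _).2
    (pb_pair (good_cd3 p c _).2 (good_cd3 p c _).2)))⟩

/-- the codes are an elementary function -/
theorem e3_tc : E3 fun m => tc p c (sent p m) := by
  have hs : (fun m => tc p c (sent p m)) = fun n => cd3 p c (Tp.Fin1 p)
      ((cdT3 p c TA1)^[n] (cdT3 p c TA0 ((cdT3 p c (TL p))^[n] (st3 p c (h0 p))))) := by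
    funext m
    simp only [sent, hfin, tc_inst, st3_iter, st3_stepH]
  rw [hs]
  have h1 := e3_iter (good_cdT3 p c (TL p)).1 (good_cdT3 p c (TL p)).2 (e3_const (st3 p c (h0 p)))
  have h2 := E3.comp (f := cdT3 p c TA0) (g := fun n => (cdT3 p c (TL p))^[n] (st3 p c (h0 p)))
    (good_cdT3 p c TA0).1 h1
  have h3 := e3_iter (good_cdT3 p c TA1).1 (good_cdT3 p c TA1).2 h2
  exact E3.comp (f := cd3 p c (Tp.Fin1 p))
    (g := fun n => (cdT3 p c TA1)^[n] (cdT3 p c TA0 ((cdT3 p c (TL p))^[n] (st3 p c (h0 p)))))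
    (good_cd3 p c (Tp.Fin1 p)).1 h3

/-! ## Growth -/

open Pool.Agent.R621.EL (occ lt_pair)

theorem tc_ex_lt (i : ℕ) (φ : Fm) : tc p c φ < tc p c (.ex i φ) := by
  rw [tc_ex]
  refine lt_of_le_of_lt ?_ (lt_pair 7 _ (by norm_num))
  refine le_trans ?_ (Nat.right_le_pair _ _)
  refine le_trans ?_ (Nat.right_le_pair _ _)
  refine le_trans ?_ (Nat.right_le_pair _ _)
  refine le_trans ?_ (Nat.right_le_pair _ _)
  refine le_trans ?_ (Nat.right_le_pair _ _)
  refine le_trans ?_ (Nat.right_le_pair _ _)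
  exact Nat.right_le_pair _ _

theorem occ_le3 (h : Fin 5 → Fm) (τ : Tp) (ho : occ τ = true) :
    tc p c (h 3) ≤ tc p c (τ.inst h) := by
  induction τ with
  | hole i =>
    simp only [occ, decide_eq_true_eq] at ho
    subst ho
    exact le_rfl
  | atom φ => simp [occ] at ho
  | neg τ ih => exact (ih ho).trans (lt_pair 5 _ (by norm_num)).le
  | and τ υ ih1 ih2 =>
    simp only [occ, Bool.or_eq_true] at ho
    refine le_trans ?_ (lt_pair 6 _ (by norm_num)).le
    rcases ho with ho | ho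
    · exact (ih1 ho).trans (Nat.left_le_pair _ _)
    · exact (ih2 ho).trans (Nat.right_le_pair _ _)
  | ex i τ ih => exact (ih ho).trans (tc_ex_lt p c i _).le

theorem grow3 (m : ℕ) (h : Fin 5 → Fm) : m ≤ tc p c ((stepH TA1)^[m] h 3) := by
  induction m with
  | zero => exact Nat.zero_le _
  | succ m ih =>
    rw [Function.iterate_succ_apply']
    have h1 : tc p c ((stepH TA1)^[m] h 3) < tc p c (stepH TA1 ((stepH TA1)^[m] h) 3) := by
      show _ < tc p c (Tp.A1.inst ((stepH TA1)^[m] h))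
      exact lt_of_le_of_lt (occ_le3 p c _ _ (by decide)) (tc_ex_lt p c 10 _)
    omega

theorem grow_sent3 (m : ℕ) : m ≤ tc p c (sent p m) := by
  refine (grow3 p c m (stepH TA0 ((stepH (TL p))^[m] (h0 p)))).trans ?_
  have hb : occ Tp.Body = true := by decide
  have ho : occ (Tp.Fin1 p) = true := by
    show (occ (Tp.InjT p) || occ Tp.Body) = true
    rw [hb, Bool.or_true]
  exact occ_le3 p c (hfin p m) (Tp.Fin1 p) ho

end

/-! ## The sentences -/

/-- for some code with 64 components the translation of the sentence number `m` holds -/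
def chi0 (p m : ℕ) : Fo := .ex 0 (.and (NF p 64) (TF p (sent p m)))

/-- with the constant `t` -/
def chi3 (p m : ℕ) : Fo := (chi0 p m).sb .tt

/-- without the constant: for some `x_3` which is not a `p`-th power -/
def chi4 (p m : ℕ) : Fo :=
  .ex 3 (.and (.neg (.ex 0 (.eq (pw (.var 0) p) (.var 3)))) ((chi0 p m).sb (.var 3)))

theorem code_chi0 (p m : ℕ) (c : Tm) : ((chi0 p m).sb c).code = Nat.pair 7 (Nat.pair 0 (Nat.pair 6
    (Nat.pair ((NF p 64).sb c).code (tc p c (sent p m))))) := rfl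

theorem e3_chi0 (p : ℕ) (c : Tm) : E3 fun m => ((chi0 p m).sb c).code := by
  simp only [code_chi0]
  exact E3.pair (e3_const 7) (E3.pair (e3_const 0) (E3.pair (e3_const 6) (E3.pair (e3_const _)
    (e3_tc p c))))

theorem grow_chi0 (p m : ℕ) (c : Tm) : m ≤ ((chi0 p m).sb c).code := by
  rw [code_chi0]
  refine (grow_sent3 p c m).trans ?_
  refine le_trans ?_ (Nat.right_le_pair _ _)
  refine le_trans ?_ (Nat.right_le_pair _ _)
  refine le_trans ?_ (Nat.right_le_pair _ _)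
  exact Nat.right_le_pair _ _

theorem e3_chi4 (p : ℕ) : E3 fun m => (chi4 p m).code :=
  E3.pair (e3_const 7) (E3.pair (e3_const 3) (E3.pair (e3_const 6) (E3.pair (e3_const _)
    (e3_chi0 p (.var 3)))))

theorem grow_chi4 (p m : ℕ) : m ≤ (chi4 p m).code := by
  refine (grow_chi0 p m (.var 3)).trans ?_
  show _ ≤ Nat.pair 7 (Nat.pair 3 (Nat.pair 6 (Nat.pair _ ((chi0 p m).sb (.var 3)).code)))
  refine le_trans ?_ (Nat.right_le_pair _ _)
  refine le_trans ?_ (Nat.right_le_pair _ _)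
  refine le_trans ?_ (Nat.right_le_pair _ _)
  exact Nat.right_le_pair _ _

theorem chi0_below (p m : ℕ) : (chi0 p m).Below 3 :=
  ⟨by norm_num, Syn.NF_below p 64, Syn.TF_below p _⟩

theorem chi0_fv (p m : ℕ) : (chi0 p m).fv ⊆ ∅ := by
  rw [chi0, Syn.fex, Syn.fand]
  exact ⟨(Syn.NF_fv p _).trans (by decide), (Syn.TF_fv p _).trans (by decide)⟩

theorem chi0_noVal (p m : ℕ) : (chi0 p m).NoVal :=
  ⟨noVal_NF p 64, noVal_TF p 64 _ (Pool.Agent.R621.EL.t_RING p m)⟩

/-- the truth value of the sentences -/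
theorem tr_chi0 {K : Type} [Field K] (O : Set K) (p : ℕ) (t : K) (hp : p ≠ 0)
    (hJ : Inj (JK p t)) (m : ℕ) (w : ℕ → K) :
    (chi0 p m).Tr O t w ↔ Pool.Agent.R621.EL.Acc m := by
  obtain ⟨-, -, -, a4, a5⟩ := t_ABS K (JK p t) hJ
  have hP : Pool.Agent.R621.EL.Pairing p K := ⟨zero_ne_one, t, hJ⟩
  have hV := varLt_ring 64 _ (Pool.Agent.R621.EL.t_RING p m)
  show (∃ x, (NF p 64).Tr O t (update w 0 x) ∧ (TF p (sent p m)).Tr O t (update w 0 x)) ↔ _
  constructor
  · rintro ⟨x, h1, h2⟩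
    rw [(t_SEM K O p t hp _).2.2.1, update_self, a4] at h1
    obtain ⟨u, hu⟩ := h1
    have h3 := (tr_TF t_ABS t_SEM O p t hp hJ 64 _ hV u (update w 0 x)
      (by rw [update_self]; exact hu)).1 h2
    exact (Pool.Agent.R621.EL.sat_acc O p m u hP).1 h3
  · intro hA
    obtain ⟨x, hx⟩ := a5 64 w
    refine ⟨x, ?_, ?_⟩
    · rw [(t_SEM K O p t hp _).2.2.1, update_self, a4]
      exact ⟨w, hx⟩
    · exact (tr_TF t_ABS t_SEM O p t hp hJ 64 _ hV w (update w 0 x)
        (by rw [update_self]; exact hx)).2 ((Pool.Agent.R621.EL.sat_acc O p m w hP).2 hA)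

theorem tr_chi3 {K : Type} [Field K] (O : Set K) (p : ℕ) (t : K) (hp : p ≠ 0)
    (hJ : Inj (JK p t)) (m : ℕ) (w : ℕ → K) :
    (chi3 p m).Tr O t w ↔ Pool.Agent.R621.EL.Acc m := by
  rw [chi3, tr_sb O .tt t (fun _ _ _ _ => rfl) _ (chi0_below p m)]
  exact tr_chi0 O p t hp hJ m w

theorem tr_chi4 {K : Type} [Field K] (O : Set K) (p : ℕ) (t : K) (hp : p ≠ 0)
    (hJ : ∀ s : K, (∀ u : K, u ^ p ≠ s) → Inj (JK p s)) (hK : ∃ s : K, ∀ u : K, u ^ p ≠ s)
    (m : ℕ) (w : ℕ → K) :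
    (chi4 p m).Tr O t w ↔ Pool.Agent.R621.EL.Acc m := by
  have hc : ∀ i, i < 3 → ∀ (a : K) (w : ℕ → K),
      (Tm.var 3).ev t (update w i a) = (Tm.var 3).ev t w := by
    intro i hi a w
    show update w i a 3 = w 3
    exact update_of_ne (by omega) _ _
  have h1 : ∀ s : K, (¬ ∃ b : K, (pw (.var 0) p).ev t (update (update w 3 s) 0 b) =
      update (update w 3 s) 0 b 3) ↔ ∀ u : K, u ^ p ≠ s := by
    intro s
    simp only [pw_ev, Tm.ev, update_self]
    rw [not_exists]
    refine forall_congr' fun u => ?_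
    rw [update_of_ne (by norm_num), update_self]
  have h2 : (chi4 p m).Tr O t w ↔ ∃ s : K, (∀ u : K, u ^ p ≠ s) ∧
      ((chi0 p m).sb (.var 3)).Tr O t (update w 3 s) :=
    exists_congr fun s => and_congr (h1 s) Iff.rfl
  rw [h2]
  constructor
  · rintro ⟨s, hs, h3⟩
    rw [tr_sb O (.var 3) t hc _ (chi0_below p m)] at h3
    have h4 : (Tm.var 3).ev t (update w 3 s) = s := update_self _ _ _
    rw [h4] at h3
    exact (tr_chi0 O p s hp (hJ s hs) m _).1 h3
  · intro hA
    obtain ⟨s, hs⟩ := hK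
    refine ⟨s, hs, ?_⟩
    rw [tr_sb O (.var 3) t hc _ (chi0_below p m)]
    have h4 : (Tm.var 3).ev t (update w 3 s) = s := update_self _ _ _
    rw [h4]
    exact (tr_chi0 O p s hp (hJ s hs) m _).2 hA

/-- every elementary function errs on infinitely many sentences of an elementary sequence -/
theorem errs_seq (g : ℕ → ℕ) (hg0 : E3 g) (f : ℕ → ℕ) (hf : E3 f) (B : ℕ) :
    ∃ m : ℕ, B ≤ m ∧ (f (g m) = 0 ↔ Pool.Agent.R621.EL.Acc m) := by
  have hg : E3 fun n => if f (g n) = 0 then 1 else 0 :=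
    t_SG (fun n => f (g n)) (E3.comp hf hg0)
  obtain ⟨c, k, hck⟩ := Pool.Agent.Y638.EL.t_REC _ hg
  obtain ⟨j, hj1, hj2⟩ : ∃ j, 2 * k + 2 ≤ j ∧ B ≤ j := ⟨max (2 * k + 2) B, le_max_left _ _,
    le_max_right _ _⟩
  obtain ⟨m, hm⟩ : ∃ m, m = Nat.pair c j := ⟨_, rfl⟩
  have hB : B ≤ m := by rw [hm]; exact hj2.trans (Nat.right_le_pair _ _)
  have hc : m.unpair.1 = c := by rw [hm, Nat.unpair_pair]
  have ht : tower k m ≤ tower m 2 := by rw [hm]; exact Pool.Agent.R621.EL.tow c k j hj1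
  refine ⟨m, hB, ?_⟩
  obtain ⟨W, hW, hW1, hW2⟩ := hck m
  constructor
  · intro h0
    refine ⟨W, hW, ?_, fun t htW => lt_of_lt_of_le (hW2 t htW) ht⟩
    simp only [if_pos h0] at hW1
    rw [hc]
    exact hW1
  · rintro ⟨W', hW', h1, _⟩
    rw [hc] at h1
    have h2 := Pool.Agent.Y151.EL.t_UNIQ W W' c m _ _ hW hW' hW1 h1
    by_contra h0
    simp only [if_neg h0] at h2
    exact absurd h2 (by norm_num)

end Pool.Agent.R621.FV
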