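import Pool.Agent.R621.FV.Defs

/-! # The translation is correct -/

set_option autoImplicit false

namespace Pool.Agent.R621.FV

open Pool.Agent.Y924.EL (Fm Sat)
open Function

theorem varLt_mono {n m : ℕ} (h : n ≤ m) (φ : Fm) : VarLt n φ → VarLt m φ := by
  induction φ with
  | eq i j => exact fun hh => ⟨hh.1.trans_le h, hh.2.trans_le h⟩
  | one i => exact fun hh => lt_of_lt_of_le hh h
  | add i j k => exact fun hh => ⟨hh.1.trans_le h, hh.2.1.trans_le h, hh.2.2.trans_le h⟩
  | mul i j k => exact fun hh => ⟨hh.1.trans_le h, hh.2.1.trans_le h, hh.2.2.trans_le h⟩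
  | val i => exact fun hh => lt_of_lt_of_le hh h
  | neg φ ih => exact ih
  | and φ ψ ih1 ih2 => exact fun hh => ⟨ih1 hh.1, ih2 hh.2⟩
  | ex i φ ih => exact fun hh => ⟨hh.1.trans_le h, ih hh.2⟩

theorem le_pair2 (k a b : ℕ) : a ≤ Nat.pair k (Nat.pair a b) ∧ b ≤ Nat.pair k (Nat.pair a b) :=
  ⟨(Nat.left_le_pair a b).trans (Nat.right_le_pair k _),
    (Nat.right_le_pair a b).trans (Nat.right_le_pair k _)⟩

theorem varLt_code (φ : Fm) : VarLt (φ.code + 1) φ := by
  induction φ with
  | eq i j =>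
    have h := le_pair2 0 i j
    exact ⟨Nat.lt_succ_of_le h.1, Nat.lt_succ_of_le h.2⟩
  | one i => exact Nat.lt_succ_of_le (Nat.right_le_pair 1 i)
  | add i j k =>
    have h := le_pair2 2 i (Nat.pair j k)
    exact ⟨Nat.lt_succ_of_le h.1, Nat.lt_succ_of_le ((Nat.left_le_pair j k).trans h.2),
      Nat.lt_succ_of_le ((Nat.right_le_pair j k).trans h.2)⟩
  | mul i j k =>
    have h := le_pair2 3 i (Nat.pair j k)
    exact ⟨Nat.lt_succ_of_le h.1, Nat.lt_succ_of_le ((Nat.left_le_pair j k).trans h.2),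
      Nat.lt_succ_of_le ((Nat.right_le_pair j k).trans h.2)⟩
  | val i => exact Nat.lt_succ_of_le (Nat.right_le_pair 4 i)
  | neg φ ih =>
    exact varLt_mono (Nat.succ_le_succ (Nat.right_le_pair 5 φ.code)) φ ih
  | and φ ψ ih1 ih2 =>
    have h := le_pair2 6 φ.code ψ.code
    exact ⟨varLt_mono (Nat.succ_le_succ h.1) φ ih1, varLt_mono (Nat.succ_le_succ h.2) ψ ih2⟩
  | ex i φ ih =>
    have h := le_pair2 7 i φ.code
    exact ⟨Nat.lt_succ_of_le h.1, varLt_mono (Nat.succ_le_succ h.2) φ ih⟩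

/-- truth depends on the free variables only -/
theorem sat_congr {K : Type} [CommRing K] (O : Set K) (φ : Fm) : ∀ v v' : ℕ → K,
    (∀ i ∈ φ.fv, v i = v' i) → (Sat O φ v ↔ Sat O φ v') := by
  induction φ with
  | eq i j =>
    intro v v' h
    have h1 := h i (by simp [Fm.fv])
    have h2 := h j (by simp [Fm.fv])
    show v i = v j ↔ v' i = v' j
    rw [h1, h2]
  | one i =>
    intro v v' h
    have h1 := h i (by simp [Fm.fv])
    show v i = 1 ↔ v' i = 1
    rw [h1]
  | add i j k =>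
    intro v v' h
    have h1 := h i (by simp [Fm.fv])
    have h2 := h j (by simp [Fm.fv])
    have h3 := h k (by simp [Fm.fv])
    show v i + v j = v k ↔ v' i + v' j = v' k
    rw [h1, h2, h3]
  | mul i j k =>
    intro v v' h
    have h1 := h i (by simp [Fm.fv])
    have h2 := h j (by simp [Fm.fv])
    have h3 := h k (by simp [Fm.fv])
    show v i * v j = v k ↔ v' i * v' j = v' k
    rw [h1, h2, h3]
  | val i =>
    intro v v' h
    have h1 := h i (by simp [Fm.fv])
    show v i ∈ O ↔ v' i ∈ O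
    rw [h1]
  | neg φ ih =>
    intro v v' h
    exact not_congr (ih v v' h)
  | and φ ψ ih1 ih2 =>
    intro v v' h
    exact and_congr (ih1 v v' fun i hi => h i (Finset.mem_union_left _ hi))
      (ih2 v v' fun i hi => h i (Finset.mem_union_right _ hi))
  | ex i φ ih =>
    intro v v' h
    refine exists_congr fun a => ih _ _ fun j hj => ?_
    by_cases hji : j = i
    · rw [hji, update_self, update_self]
    · rw [update_of_ne hji, update_of_ne hji]
      exact h j (Finset.mem_erase.2 ⟨hji, hj⟩)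

theorem tr_TF (hA : S_ABS) (hS : S_SEM) {K : Type} [Field K] (O : Set K) (p : ℕ) (t : K)
    (hp : p ≠ 0) (hJ : Inj (JK p t)) (n : ℕ) (φ : Fm) : VarLt n φ → ∀ v w : ℕ → K,
      Cod (JK p t) n (w 0) v → ((TF p φ).Tr O t w ↔ Sat O φ v) := by
  obtain ⟨a1, a2, a3, -, -⟩ := hA K (JK p t) hJ
  have n01 : (0 : ℕ) ≠ 1 := by norm_num
  have n02 : (0 : ℕ) ≠ 2 := by norm_num
  have n12 : (1 : ℕ) ≠ 2 := by norm_num
  have hV : ∀ (w : ℕ → K) (v : ℕ → K), Cod (JK p t) n (w 0) v → ∀ i, i < n →
      ((VF p i).Tr O t w ↔ w 1 = v i) := by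
    intro w v hc i hi
    rw [(hS K O p t hp w).1 i, a1 n _ v hc i hi]
  have hQ : ∀ (w : ℕ → K) (v : ℕ → K), Cod (JK p t) n (w 0) v → ∀ i j, i < n → j < n →
      ((QF p i j).Tr O t w ↔ w 2 = JK p t (v i) (v j)) := by
    intro w v hc i j hi hj
    rw [(hS K O p t hp w).2.2.2.1 i j]
    constructor
    · rintro ⟨⟨a, ha, b, hb⟩, b', hb', a', ha'⟩
      rw [a1 n _ v hc i hi] at ha
      rw [a1 n _ v hc j hj] at hb'
      have h1 := (hJ _ _ _ _ (hb.trans ha'.symm)).2
      rw [← hb, ha, h1, hb']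
    · intro h
      exact ⟨⟨v i, (a1 n _ v hc i hi _).2 rfl, v j, h.symm⟩,
        v j, (a1 n _ v hc j hj _).2 rfl, v i, h.symm⟩
  induction φ with
  | eq i j =>
    rintro ⟨hi, hj⟩ v w hc
    show (∃ a, (VF p i).Tr O t (update w 1 a) ∧ (VF p j).Tr O t (update w 1 a)) ↔ v i = v j
    have hc' : ∀ a, Cod (JK p t) n (update w 1 a 0) v := fun a => by
      rw [update_of_ne n01]; exact hc
    constructor
    · rintro ⟨a, h1, h2⟩
      rw [hV _ v (hc' a) i hi, update_self] at h1
      rw [hV _ v (hc' a) j hj, update_self] at h2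
      rw [← h1, ← h2]
    · intro h
      refine ⟨v i, ?_, ?_⟩
      · rw [hV _ v (hc' _) i hi, update_self]
      · rw [hV _ v (hc' _) j hj, update_self]; exact h
  | one i =>
    intro hi v w hc
    show (∃ a, (VF p i).Tr O t (update w 1 a) ∧ (update w 1 a) 1 = (1 : K)) ↔ v i = 1
    have hc' : ∀ a, Cod (JK p t) n (update w 1 a 0) v := fun a => by
      rw [update_of_ne n01]; exact hc
    constructor
    · rintro ⟨a, h1, h2⟩
      rw [hV _ v (hc' a) i hi, update_self] at h1
      rw [update_self] at h2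
      rw [← h1, ← h2]
    · intro h
      refine ⟨v i, ?_, ?_⟩
      · rw [hV _ v (hc' _) i hi, update_self]
      · rw [update_self]; exact h
  | val i =>
    intro hi v w hc
    show (∃ a, (VF p i).Tr O t (update w 1 a) ∧ (update w 1 a) 1 ∈ O) ↔ v i ∈ O
    have hc' : ∀ a, Cod (JK p t) n (update w 1 a 0) v := fun a => by
      rw [update_of_ne n01]; exact hc
    constructor
    · rintro ⟨a, h1, h2⟩
      rw [hV _ v (hc' a) i hi, update_self] at h1
      rw [update_self] at h2
      rw [← h1]; exact h2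
    · intro h
      refine ⟨v i, ?_, ?_⟩
      · rw [hV _ v (hc' _) i hi, update_self]
      · rw [update_self]; exact h
  | add i j k =>
    rintro ⟨hi, hj, hk⟩ v w hc
    show (∃ b, (QF p i j).Tr O t (update w 2 b) ∧ ∃ a, (VF p k).Tr O t (update (update w 2 b) 1 a) ∧
      (SumF p).Tr O t (update (update w 2 b) 1 a)) ↔ v i + v j = v k
    have hc' : ∀ b, Cod (JK p t) n (update w 2 b 0) v := fun b => by
      rw [update_of_ne n02]; exact hc
    have hc2 : ∀ b a, Cod (JK p t) n (update (update w 2 b) 1 a 0) v := fun b a => by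
      rw [update_of_ne n01]; exact hc' b
    constructor
    · rintro ⟨b, h1, a, h2, h3⟩
      rw [hQ _ v (hc' b) i j hi hj, update_self] at h1
      rw [hV _ v (hc2 b a) k hk, update_self] at h2
      rw [(hS K O p t hp _).2.2.2.2.1, update_self, update_of_ne n12.symm, update_self] at h3
      obtain ⟨x, y, h4, h5⟩ := h3
      rw [h1] at h4
      obtain ⟨h6, h7⟩ := hJ _ _ _ _ h4
      rw [← h6, ← h7, h5, h2]
    · intro h
      refine ⟨JK p t (v i) (v j), ?_, v k, ?_, ?_⟩
      · rw [hQ _ v (hc' _) i j hi hj, update_self]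
      · rw [hV _ v (hc2 _ _) k hk, update_self]
      · rw [(hS K O p t hp _).2.2.2.2.1, update_self, update_of_ne n12.symm, update_self]
        exact ⟨v i, v j, rfl, h⟩
  | mul i j k =>
    rintro ⟨hi, hj, hk⟩ v w hc
    show (∃ b, (QF p i j).Tr O t (update w 2 b) ∧ ∃ a, (VF p k).Tr O t (update (update w 2 b) 1 a) ∧
      (ProdF p).Tr O t (update (update w 2 b) 1 a)) ↔ v i * v j = v k
    have hc' : ∀ b, Cod (JK p t) n (update w 2 b 0) v := fun b => by
      rw [update_of_ne n02]; exact hc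
    have hc2 : ∀ b a, Cod (JK p t) n (update (update w 2 b) 1 a 0) v := fun b a => by
      rw [update_of_ne n01]; exact hc' b
    constructor
    · rintro ⟨b, h1, a, h2, h3⟩
      rw [hQ _ v (hc' b) i j hi hj, update_self] at h1
      rw [hV _ v (hc2 b a) k hk, update_self] at h2
      rw [(hS K O p t hp _).2.2.2.2.2, update_self, update_of_ne n12.symm, update_self] at h3
      obtain ⟨x, y, h4, h5⟩ := h3
      rw [h1] at h4
      obtain ⟨h6, h7⟩ := hJ _ _ _ _ h4
      rw [← h6, ← h7, h5, h2]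
    · intro h
      refine ⟨JK p t (v i) (v j), ?_, v k, ?_, ?_⟩
      · rw [hQ _ v (hc' _) i j hi hj, update_self]
      · rw [hV _ v (hc2 _ _) k hk, update_self]
      · rw [(hS K O p t hp _).2.2.2.2.2, update_self, update_of_ne n12.symm, update_self]
        exact ⟨v i, v j, rfl, h⟩
  | neg φ ih =>
    intro hφ v w hc
    exact not_congr (ih hφ v w hc)
  | and φ ψ ih1 ih2 =>
    rintro ⟨h1, h2⟩ v w hc
    exact and_congr (ih1 h1 v w hc) (ih2 h2 v w hc)
  | ex i φ ih =>
    rintro ⟨hi, hφ⟩ v w hc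
    show (∃ y, (SF p i).Tr O t (update w 1 y) ∧ ∃ x, update (update w 1 y) 0 x 0 =
      update (update w 1 y) 0 x 1 ∧ (TF p φ).Tr O t (update (update w 1 y) 0 x)) ↔
      ∃ b, Sat O φ (update v i b)
    constructor
    · rintro ⟨y, h1, x, h2, h3⟩
      rw [(hS K O p t hp _).2.1 i, update_of_ne n01, update_self] at h1
      rw [update_self, update_of_ne n01.symm, update_self] at h2
      obtain ⟨b, hb⟩ := a2 n _ _ v hc i hi h1
      refine ⟨b, (ih hφ (update v i b) _ ?_).1 h3⟩
      rw [update_self, h2]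
      exact hb
    · rintro ⟨b, hb⟩
      obtain ⟨y, h1, h2⟩ := a3 n _ v b hc i hi
      refine ⟨y, ?_, y, ?_, ?_⟩
      · rw [(hS K O p t hp _).2.1 i, update_of_ne n01, update_self]
        exact h1
      · rw [update_self, update_of_ne n01.symm, update_self]
      · refine (ih hφ (update v i b) _ ?_).2 hb
        rw [update_self]
        exact h2

theorem t_MAIN (hA : S_ABS) (hS : S_SEM) : S_MAIN := by
  intro K _ O p t hp hJ φ hfv v w hv
  obtain ⟨a1, -, -, a4, a5⟩ := hA K (JK p t) hJ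
  have n01 : (0 : ℕ) ≠ 1 := by norm_num
  show (∃ x, (NF p (φ.code + 1)).Tr O t (update w 0 x) ∧
    (∃ y, update (update w 0 x) 1 y 1 = t ∧ (VF p 0).Tr O t (update (update w 0 x) 1 y)) ∧
    (TF p φ).Tr O t (update w 0 x)) ↔ Sat O φ v
  constructor
  · rintro ⟨x, h1, ⟨y, h2, h3⟩, h4⟩
    rw [(hS K O p t hp _).2.2.1, update_self, a4] at h1
    obtain ⟨u, hu⟩ := h1
    rw [update_self] at h2
    rw [(hS K O p t hp _).1 0, update_self, update_of_ne n01, update_self,
      a1 _ _ u hu 0 (Nat.succ_pos _)] at h3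
    have h5 := (tr_TF hA hS O p t hp hJ _ φ (varLt_code φ) u (update w 0 x)
      (by rw [update_self]; exact hu)).1 h4
    refine (sat_congr O φ u v fun i hi => ?_).1 h5
    have := hfv hi
    rw [Finset.mem_singleton] at this
    rw [this, hv, ← h3, h2]
  · intro hs
    obtain ⟨x, hx⟩ := a5 (φ.code + 1) v
    refine ⟨x, ?_, ⟨t, ?_, ?_⟩, ?_⟩
    · rw [(hS K O p t hp _).2.2.1, update_self, a4]
      exact ⟨v, hx⟩
    · rw [update_self]
    · rw [(hS K O p t hp _).1 0, update_self, update_of_ne n01, update_self,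
        a1 _ _ v hx 0 (Nat.succ_pos _)]
      exact hv.symm
    · exact (tr_TF hA hS O p t hp hJ _ φ (varLt_code φ) v (update w 0 x)
        (by rw [update_self]; exact hx)).2 hs

end Pool.Agent.R621.FV
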