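import Pool.Agent.R621.FV.Defs
import Pool.Agent.Y900.UF.Rec

/-!
# FV-PR: the translation is primitive recursive on codes
-/

set_option autoImplicit false

namespace Pool.Agent.R621.FV

open Pool.Agent.Y924.EL (Fm Sat)

namespace PrAux

/-- the codes of the values are primitive recursive -/
def PF (f : ℕ → Fo) : Prop := Primrec fun m => (f m).code

theorem ppair {f g : ℕ → ℕ} (hf : Primrec f) (hg : Primrec g) :
    Primrec fun m => Nat.pair (f m) (g m) := Primrec₂.natPair.comp hf hg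

/-- codes of conjunctions and quantifications -/
def cA (a b : ℕ) : ℕ := Nat.pair 6 (Nat.pair a b)

def cE (i a : ℕ) : ℕ := Nat.pair 7 (Nat.pair i a)

theorem pA {f g : ℕ → ℕ} (hf : Primrec f) (hg : Primrec g) : Primrec fun m => cA (f m) (g m) :=
  ppair (Primrec.const 6) (ppair hf hg)

theorem pE (i : ℕ) {f : ℕ → ℕ} (hf : Primrec f) : Primrec fun m => cE i (f m) :=
  ppair (Primrec.const 7) (ppair (Primrec.const i) hf)

theorem pc (φ : Fo) : Primrec fun _ : ℕ => φ.code := Primrec.const _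

theorem pf_const (φ : Fo) : PF fun _ => φ := Primrec.const _

theorem pf_and {f g : ℕ → Fo} (hf : PF f) (hg : PF g) : PF fun m => .and (f m) (g m) := pA hf hg

theorem pf_ex (i : ℕ) {f : ℕ → Fo} (hf : PF f) : PF fun m => .ex i (f m) := pE i hf

theorem pf_rec (f : ℕ → Fo) (G : ℕ → ℕ) (hG : Primrec G)
    (h : ∀ i, (f (i + 1)).code = G (f i).code) : PF f := by
  have h1 : Primrec₂ (fun (_ : ℕ) (c : ℕ) => G c) := (hG.comp Primrec.snd).to₂
  have h2 := Primrec.nat_rec₁ (f 0).code h1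
  refine h2.of_eq fun n => ?_
  induction n with
  | zero => rfl
  | succ n ih =>
    rw [h n]
    exact congrArg G ih

theorem pf_comp {f : ℕ → Fo} (hf : PF f) {g : ℕ → ℕ} (hg : Primrec g) : PF fun m => f (g m) :=
  Primrec.comp (f := fun m => (f m).code) hf hg

theorem pf_RF (p : ℕ) : PF (RF p) := by
  refine pf_rec _ (fun c => cE 2 (cA (cE 1 (cA (Fo.eq (.var 1) (.var 2)).code c))
    (Fo.ex 0 (JE p (.var 0) (.var 1) (.var 2))).code)) ?_ (fun i => rfl)
  exact pE 2 (pA (pE 1 (pA (pc _) Primrec.id)) (pc _))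

theorem pf_SF (p : ℕ) : PF (SF p) := by
  refine pf_rec _ (fun c => cA
    (Fo.ex 2 (.and (.ex 1 (JE p (.var 2) (.var 1) (.var 0)))
        (.ex 0 (JE p (.var 2) (.var 0) (.var 1))))).code
    (cE 2 (cA (Fo.ex 1 (JE p (.var 1) (.var 2) (.var 0))).code
      (cE 0 (cA (Fo.ex 2 (JE p (.var 2) (.var 0) (.var 1))).code
        (cE 1 (cA (Fo.eq (.var 1) (.var 0)).code
          (cE 0 (cA (Fo.eq (.var 0) (.var 2)).code c))))))))) ?_ (fun i => rfl)
  exact pA (pc _) (pE 2 (pA (pc _) (pE 0 (pA (pc _) (pE 1 (pA (pc _)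
    (pE 0 (pA (pc _) Primrec.id))))))))

theorem pf_NF (p : ℕ) : PF (NF p) := by
  refine pf_rec _ (fun c => cE 1 (cA (Fo.ex 2 (JE p (.var 2) (.var 1) (.var 0))).code
    (cE 0 (cA (Fo.eq (.var 0) (.var 1)).code c)))) ?_ (fun i => rfl)
  exact pE 1 (pA (pc _) (pE 0 (pA (pc _) Primrec.id)))

theorem pf_VF (p : ℕ) {g : ℕ → ℕ} (hg : Primrec g) : PF fun m => VF p (g m) :=
  pf_ex 2 (pf_and (pf_ex 1 (pf_and (pf_const _) (pf_comp (pf_RF p) hg))) (pf_const _))

theorem pf_QF (p : ℕ) {g h : ℕ → ℕ} (hg : Primrec g) (hh : Primrec h) :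
    PF fun m => QF p (g m) (h m) :=
  pf_and (pf_ex 1 (pf_and (pf_VF p hg) (pf_const _)))
    (pf_ex 1 (pf_and (pf_VF p hh) (pf_const _)))

end PrAux

open PrAux

theorem t_PR : S_PR := by
  intro p
  have P1 : Primrec fun m : ℕ => m.unpair.1 := Primrec.fst.comp Primrec.unpair
  have P2 : Primrec fun m : ℕ => m.unpair.2 := Primrec.snd.comp Primrec.unpair
  have P21 : Primrec fun m : ℕ => m.unpair.2.unpair.1 := P1.comp P2
  have P22 : Primrec fun m : ℕ => m.unpair.2.unpair.2 := P2.comp P2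
  have hg0 : Primrec fun m : ℕ => (TF p (.eq m.unpair.1 m.unpair.2)).code :=
    pf_ex 1 (pf_and (pf_VF p P1) (pf_VF p P2))
  have hg1 : Primrec fun m : ℕ => (TF p (.one m)).code :=
    pf_ex 1 (pf_and (pf_VF p Primrec.id) (pf_const _))
  have hg2 : Primrec fun m : ℕ => (TF p (.add m.unpair.1 m.unpair.2.unpair.1
      m.unpair.2.unpair.2)).code :=
    pf_ex 2 (pf_and (pf_QF p P1 P21) (pf_ex 1 (pf_and (pf_VF p P22) (pf_const _))))
  have hg3 : Primrec fun m : ℕ => (TF p (.mul m.unpair.1 m.unpair.2.unpair.1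
      m.unpair.2.unpair.2)).code :=
    pf_ex 2 (pf_and (pf_QF p P1 P21) (pf_ex 1 (pf_and (pf_VF p P22) (pf_const _))))
  have hg4 : Primrec fun m : ℕ => (TF p (.val m)).code :=
    pf_ex 1 (pf_and (pf_VF p Primrec.id) (pf_const _))
  have hg7 : Primrec fun m : ℕ => cE 1 (cA (SF p m.unpair.1).code
      (cE 0 (cA (Fo.eq (.var 0) (.var 1)).code m.unpair.2))) :=
    pE 1 (pA (pf_comp (pf_SF p) P1) (pE 0 (pA (pc _) P2)))
  obtain ⟨F, hF, h0, h1, h2, h3, h4, h5, h6, h7⟩ :=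
    Pool.Agent.Y900.UF.t_REC _ _ _ _ _ _ hg0 hg1 hg2 hg3 hg4 hg7
  have hT : ∀ φ : Fm, F φ.code = (TF p φ).code := by
    intro φ
    induction φ with
    | eq i j =>
      change F (Nat.pair 0 (Nat.pair i j)) = _
      rw [h0]
      simp only [Nat.unpair_pair]
    | one i =>
      change F (Nat.pair 1 i) = _
      rw [h1]
    | add i j k =>
      change F (Nat.pair 2 (Nat.pair i (Nat.pair j k))) = _
      rw [h2]
      simp only [Nat.unpair_pair]
    | mul i j k =>
      change F (Nat.pair 3 (Nat.pair i (Nat.pair j k))) = _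
      rw [h3]
      simp only [Nat.unpair_pair]
    | val i =>
      change F (Nat.pair 4 i) = _
      rw [h4]
    | neg ψ ih =>
      change F (Nat.pair 5 ψ.code) = Nat.pair 5 (TF p ψ).code
      rw [h5, ih]
    | and ψ χ ih1 ih2 =>
      change F (Nat.pair 6 (Nat.pair ψ.code χ.code)) =
        Nat.pair 6 (Nat.pair (TF p ψ).code (TF p χ).code)
      rw [h6, ih1, ih2]
    | ex i ψ ih =>
      change F (Nat.pair 7 (Nat.pair i ψ.code)) = _
      rw [h7, ih]
      simp only [Nat.unpair_pair]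
      rfl
  refine ⟨fun m => cE 0 (cA (NF p (m + 1)).code
    (cA (Fo.ex 1 (.and (.eq (.var 1) .tt) (VF p 0))).code (F m))), ?_, fun φ => ?_⟩
  · exact pE 0 (pA (pf_comp (pf_NF p) Primrec.succ) (pA (pc _) hF))
  · beta_reduce
    rw [hT]
    rfl

end Pool.Agent.R621.FV
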